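import Mathlib

/-!
The operators `L_m p = D p' + T_m p` on polynomials, and the pair lemma.
Here `D = prod_{j <= h} (1 + r² j y)` and `T_m / D` is the logarithmic derivative of
`prod_{j <= m} (1 + r² j y)^{1/r}`.
-/

namespace Pool.H78.Fac

open Finset Polynomial

section generic

variable (R : Type*) [CommRing R]

/-- `1 + r² (j+1) y` -/
noncomputable def fac (r j : ℕ) : R[X] := 1 + C ((r ^ 2 * (j + 1) : ℕ) : R) * X

/-- `D = prod_{j < h} (1 + r² (j+1) y)` -/
noncomputable def DD (r h : ℕ) : R[X] := ∏ j ∈ range h, fac R r j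

/-- `T_m = sum_{j < m} r (j+1) prod_{l < h, l ≠ j} (1 + r² (l+1) y)` -/
noncomputable def TT (r h m : ℕ) : R[X] :=
  ∑ j ∈ range m, C ((r * (j + 1) : ℕ) : R) * ∏ l ∈ (range h).erase j, fac R r l

/-- `L_m p = D p' + T_m p` -/
noncomputable def LL (r h m : ℕ) (p : R[X]) : R[X] := DD R r h * derivative p + TT R r h m * p

variable {R}

lemma LL_add (r h m : ℕ) (p q : R[X]) : LL R r h m (p + q) = LL R r h m p + LL R r h m q := by
  simp only [LL, derivative_add]; ring

lemma LL_mul (r h m : ℕ) (p q : R[X]) :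
    LL R r h m (p * q) = DD R r h * derivative p * q + p * LL R r h m q := by
  simp only [LL, derivative_mul]; ring

lemma LL_zero (r h m : ℕ) : LL R r h m 0 = 0 := by simp [LL]

lemma LLit_zero (r h m s : ℕ) : (LL R r h m)^[s] 0 = 0 := by
  induction s with
  | zero => rfl
  | succ s ih => rw [Function.iterate_succ_apply, LL_zero, ih]

lemma LLit_add (r h m s : ℕ) (p q : R[X]) :
    (LL R r h m)^[s] (p + q) = (LL R r h m)^[s] p + (LL R r h m)^[s] q := by
  induction s generalizing p q with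
  | zero => rfl
  | succ s ih => simp only [Function.iterate_succ_apply, LL_add, ih]

variable {S : Type*} [CommRing S]

lemma map_fac (f : R →+* S) (r j : ℕ) : (fac R r j).map f = fac S r j := by
  simp only [fac, Polynomial.map_add, Polynomial.map_one, Polynomial.map_mul,
    Polynomial.map_X, map_natCast, Polynomial.map_natCast]

lemma map_DD (f : R →+* S) (r h : ℕ) : (DD R r h).map f = DD S r h := by
  simp only [DD, Polynomial.map_prod, map_fac]

lemma map_TT (f : R →+* S) (r h m : ℕ) : (TT R r h m).map f = TT S r h m := by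
  simp only [TT, Polynomial.map_sum, Polynomial.map_prod, map_fac, Polynomial.map_mul,
    map_natCast, Polynomial.map_natCast]

lemma map_LL (f : R →+* S) (r h m : ℕ) (p : R[X]) :
    (LL R r h m p).map f = LL S r h m (p.map f) := by
  simp only [LL, Polynomial.map_add, Polynomial.map_mul, map_DD, map_TT, derivative_map]

lemma map_LLit (f : R →+* S) (r h m s : ℕ) (p : R[X]) :
    ((LL R r h m)^[s] p).map f = (LL S r h m)^[s] (p.map f) := by
  induction s generalizing p with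
  | zero => rfl
  | succ s ih => simp only [Function.iterate_succ_apply, ih, map_LL]

end generic

/-! ### rational roots -/

/-- the root of `fac ℚ r j` -/
noncomputable def rt (r j : ℕ) : ℚ := -1 / (r ^ 2 * (j + 1))

lemma fac_eq {r : ℕ} (hr : r ≠ 0) (j : ℕ) :
    fac ℚ r j = C ((r : ℚ) ^ 2 * ((j : ℚ) + 1)) * (X - C (rt r j)) := by
  have hj : ((j : ℚ) + 1) ≠ 0 := by positivity
  have hr' : (r : ℚ) ≠ 0 := by exact_mod_cast hr
  rw [mul_sub, ← C_mul, fac, rt]
  have : ((r : ℚ) ^ 2 * ((j : ℚ) + 1)) * (-1 / (r ^ 2 * (j + 1))) = -1 := by field_simp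
  rw [this]
  push_cast
  simp only [C_neg, C_1]
  ring

lemma eval_fac (r j : ℕ) (y : ℚ) : (fac ℚ r j).eval y = 1 + (r : ℚ) ^ 2 * ((j : ℚ) + 1) * y := by
  rw [fac, eval_add, eval_mul, eval_C, eval_one, eval_X]
  push_cast
  ring

lemma eval_fac_rt {r : ℕ} (hr : r ≠ 0) (j l : ℕ) :
    (fac ℚ r l).eval (rt r j) = 1 - ((l : ℚ) + 1) / (j + 1) := by
  have hj : ((j : ℚ) + 1) ≠ 0 := by positivity
  have hr' : (r : ℚ) ≠ 0 := by exact_mod_cast hr
  rw [eval_fac, rt]
  field_simp
  ring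

lemma eval_fac_self {r : ℕ} (hr : r ≠ 0) (j : ℕ) : (fac ℚ r j).eval (rt r j) = 0 := by
  have hj : ((j : ℚ) + 1) ≠ 0 := by positivity
  rw [eval_fac_rt hr, div_self hj]; ring

lemma eval_fac_ne {r : ℕ} (hr : r ≠ 0) {j l : ℕ} (h : l ≠ j) :
    (fac ℚ r l).eval (rt r j) ≠ 0 := by
  have hj : ((j : ℚ) + 1) ≠ 0 := by positivity
  rw [eval_fac_rt hr]
  intro h0
  have : ((l : ℚ) + 1) / (j + 1) = 1 := by linarith
  rw [div_eq_one_iff_eq hj] at this
  apply h
  have : (l : ℚ) = j := by linarith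
  exact_mod_cast this

lemma eval_DD_pos (r h : ℕ) {y : ℚ} (hy : 0 ≤ y) : 0 < (DD ℚ r h).eval y := by
  rw [DD, eval_prod]
  apply Finset.prod_pos
  intro j _
  rw [eval_fac]
  positivity

/-- `(X - y) * ((X - y)^b q)' = (X - y)^b (b q + (X - y) q')` -/
lemma mul_deriv_pow (y : ℚ) (b : ℕ) (q : ℚ[X]) :
    (X - C y) * derivative ((X - C y) ^ b * q)
      = (X - C y) ^ b * (C (b : ℚ) * q + (X - C y) * derivative q) := by
  rcases b with _ | b
  · simp
  · rw [derivative_mul, derivative_pow]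
    simp only [derivative_sub, derivative_X, derivative_C, sub_zero, mul_one, Nat.add_sub_cancel]
    ring

/-- pair lemma, ordered version -/
lemma pair_lt {r h m1 m2 : ℕ} (hr : 2 ≤ r) (hlt : m1 < m2) (hm2 : m2 ≤ h) {p q : ℚ[X]}
    (hp : p ≠ 0) (hq : q ≠ 0) : p * LL ℚ r h m2 q - q * LL ℚ r h m1 p ≠ 0 := by
  intro h0
  have hr0 : r ≠ 0 := by omega
  obtain ⟨j, rfl⟩ : ∃ j, m2 = j + 1 := ⟨m2 - 1, by omega⟩
  set y := rt r j with hy
  obtain ⟨p1, hp1, hp1n⟩ := Polynomial.exists_eq_pow_rootMultiplicity_mul_and_not_dvd p hp y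
  obtain ⟨q1, hq1, hq1n⟩ := Polynomial.exists_eq_pow_rootMultiplicity_mul_and_not_dvd q hq y
  set α := p.rootMultiplicity y
  set β := q.rootMultiplicity y
  have hpe : p1.eval y ≠ 0 := by
    intro h; exact hp1n (dvd_iff_isRoot.2 h)
  have hqe : q1.eval y ≠ 0 := by
    intro h; exact hq1n (dvd_iff_isRoot.2 h)
  set D' : ℚ[X] := ∏ l ∈ (range h).erase j, fac ℚ r l with hD'
  have hjm : j ∈ range h := mem_range.2 (by omega)
  have hDD : DD ℚ r h = C ((r : ℚ) ^ 2 * ((j : ℚ) + 1)) * (X - C y) * D' := by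
    rw [DD, ← mul_prod_erase _ _ hjm, fac_eq hr0]
  have hDe : D'.eval y ≠ 0 := by
    rw [hD', eval_prod]
    apply Finset.prod_ne_zero_iff.2
    intro l hl
    exact eval_fac_ne hr0 (Finset.ne_of_mem_erase hl)
  -- difference of T's at y
  have hT : (TT ℚ r h (j+1)).eval y - (TT ℚ r h m1).eval y
      = (r : ℚ) * ((j : ℚ) + 1) * D'.eval y := by
    have h1 : ∀ i ∈ range h, i ≠ j →
        (C ((r * (i + 1) : ℕ) : ℚ) * ∏ l ∈ (range h).erase i, fac ℚ r l).eval y = 0 := by
      intro i _ hij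
      rw [eval_mul, eval_prod]
      have : ∏ l ∈ (range h).erase i, eval y (fac ℚ r l) = 0 :=
        Finset.prod_eq_zero (Finset.mem_erase.2 ⟨Ne.symm hij, hjm⟩) (eval_fac_self hr0 j)
      rw [this, mul_zero]
    have h2 : (TT ℚ r h m1).eval y = 0 := by
      rw [TT, eval_finsetSum]
      apply Finset.sum_eq_zero
      intro i hi
      have := mem_range.1 hi
      exact h1 i (mem_range.2 (by omega)) (by omega)
    have h3 : (TT ℚ r h (j+1)).eval y = (r : ℚ) * ((j : ℚ) + 1) * D'.eval y := by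
      rw [TT, eval_finsetSum, Finset.sum_range_succ]
      have h4 : ∑ x ∈ range j,
          eval y (C ((r * (x + 1) : ℕ) : ℚ) * ∏ l ∈ (range h).erase x, fac ℚ r l) = 0 := by
        apply Finset.sum_eq_zero
        intro i hi
        have := mem_range.1 hi
        exact h1 i (mem_range.2 (by omega)) (by omega)
      rw [h4, zero_add, eval_mul, eval_C]
      push_cast
      ring
    rw [h2, h3, sub_zero]
  -- the main identity
  have key : (X - C y) ^ (α + β) *
      (C ((r : ℚ) ^ 2 * ((j : ℚ) + 1)) * D' * (C ((β : ℚ) - α) * (p1 * q1)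
        + (X - C y) * (p1 * derivative q1 - derivative p1 * q1))
        + (TT ℚ r h (j+1) - TT ℚ r h m1) * (p1 * q1)) = 0 := by
    have e1 := mul_deriv_pow y β q1
    have e2 := mul_deriv_pow y α p1
    rw [← hq1] at e1
    rw [← hp1] at e2
    have : p * LL ℚ r h (j+1) q - q * LL ℚ r h m1 p
        = C ((r : ℚ) ^ 2 * ((j : ℚ) + 1)) * D' * (p * ((X - C y) * derivative q)
          - q * ((X - C y) * derivative p)) + (TT ℚ r h (j+1) - TT ℚ r h m1) * (p * q) := by
      simp only [LL, hDD]; ring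
    rw [this, e1, e2] at h0
    rw [← h0]
    conv_rhs => rw [hp1, hq1]
    rw [C_sub]
    ring
  have hX : (X - C y) ^ (α + β) ≠ 0 := pow_ne_zero _ (X_sub_C_ne_zero y)
  have key2 := (mul_eq_zero.1 key).resolve_left hX
  have key3 := congrArg (eval y) key2
  simp only [eval_add, eval_mul, eval_sub, eval_X, eval_C, sub_self, zero_mul, add_zero,
    eval_zero] at key3
  rw [hT] at key3
  have hj : ((j : ℚ) + 1) ≠ 0 := by positivity
  have hr' : (r : ℚ) ≠ 0 := by exact_mod_cast hr0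
  have h4 : (r : ℚ) * ((j : ℚ) + 1) * D'.eval y * (p1.eval y * q1.eval y)
      * ((r : ℚ) * ((β : ℚ) - α) + 1) = 0 := by
    rw [← key3]; ring
  have h5 : ((r : ℚ) * ((β : ℚ) - α) + 1) = 0 := by
    rcases mul_eq_zero.1 h4 with h6 | h6
    · exfalso
      have : (r : ℚ) * ((j : ℚ) + 1) * D'.eval y * (p1.eval y * q1.eval y) ≠ 0 := by positivity
      exact this h6
    · exact h6
  have h6 : ((r : ℤ) * ((β : ℤ) - α) + 1) = 0 := by exact_mod_cast h5
  have h7 : (r : ℤ) ∣ 1 := ⟨-((β : ℤ) - α), by linarith⟩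
  have h8 := Int.le_of_dvd one_pos h7
  omega

lemma pair_ne {r h m1 m2 : ℕ} (hr : 2 ≤ r) (hne : m1 ≠ m2) (hm1 : m1 ≤ h) (hm2 : m2 ≤ h)
    {p q : ℚ[X]} (hp : p ≠ 0) (hq : q ≠ 0) : p * LL ℚ r h m2 q - q * LL ℚ r h m1 p ≠ 0 := by
  rcases lt_or_gt_of_ne hne with h1 | h1
  · exact pair_lt hr h1 hm2 hp hq
  · intro h0
    apply pair_lt hr h1 hm1 hq hp
    rw [← neg_eq_zero, ← h0]
    ring

end Pool.H78.Fac
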