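import Pool.Agent.H78.Fac.Ser

/-!
Evaluation of integral power series at a real point.
-/

namespace Pool.H78.Fac

open Finset PowerSeries

/-- absolute summability at `y` -/
def Sm (y : ℝ) (f : PowerSeries ℤ) : Prop := Summable fun e => |((coeff e f : ℤ) : ℝ)| * y ^ e

/-- evaluation at `y` -/
noncomputable def ev (y : ℝ) (f : PowerSeries ℤ) : ℝ := ∑' e, ((coeff e f : ℤ) : ℝ) * y ^ e

lemma Sm.norm {y : ℝ} (hy : 0 ≤ y) {f : PowerSeries ℤ} (h : Sm y f) :
    Summable fun e => ‖((coeff e f : ℤ) : ℝ) * y ^ e‖ := by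
  have : (fun e => ‖((coeff e f : ℤ) : ℝ) * y ^ e‖)
      = fun e => |((coeff e f : ℤ) : ℝ)| * y ^ e := by
    funext e
    rw [norm_mul, Real.norm_eq_abs, Real.norm_eq_abs, abs_of_nonneg (pow_nonneg hy e)]
  rw [this]
  exact h

lemma Sm.summable {y : ℝ} (hy : 0 ≤ y) {f : PowerSeries ℤ} (h : Sm y f) :
    Summable fun e => ((coeff e f : ℤ) : ℝ) * y ^ e := (h.norm hy).of_norm

lemma coeff_mul_eq (y : ℝ) (f g : PowerSeries ℤ) (e : ℕ) :
    ((coeff e (f * g) : ℤ) : ℝ) * y ^ e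
      = ∑ p ∈ antidiagonal e, (((coeff p.1 f : ℤ) : ℝ) * y ^ p.1)
          * (((coeff p.2 g : ℤ) : ℝ) * y ^ p.2) := by
  rw [coeff_mul]
  push_cast
  rw [Finset.sum_mul]
  apply Finset.sum_congr rfl
  intro p hp
  rw [HasAntidiagonal.mem_antidiagonal] at hp
  rw [← hp]
  ring

lemma Sm.mul {y : ℝ} (hy : 0 ≤ y) {f g : PowerSeries ℤ} (hf : Sm y f) (hg : Sm y g) :
    Sm y (f * g) := by
  have := summable_norm_sum_mul_antidiagonal_of_summable_norm (hf.norm hy) (hg.norm hy)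
  simp only [← coeff_mul_eq] at this
  unfold Sm
  have h2 : (fun e => |((coeff e (f * g) : ℤ) : ℝ)| * y ^ e)
      = fun e => ‖((coeff e (f * g) : ℤ) : ℝ) * y ^ e‖ := by
    funext e
    rw [norm_mul, Real.norm_eq_abs, Real.norm_eq_abs, abs_of_nonneg (pow_nonneg hy e)]
  rw [h2]
  exact this

lemma ev_mul {y : ℝ} (hy : 0 ≤ y) {f g : PowerSeries ℤ} (hf : Sm y f) (hg : Sm y g) :
    ev y (f * g) = ev y f * ev y g := by
  unfold ev
  rw [tsum_mul_tsum_eq_tsum_sum_antidiagonal_of_summable_norm (hf.norm hy) (hg.norm hy)]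
  simp only [← coeff_mul_eq]

lemma Sm.add {y : ℝ} (hy : 0 ≤ y) {f g : PowerSeries ℤ} (hf : Sm y f) (hg : Sm y g) :
    Sm y (f + g) := by
  unfold Sm at *
  refine Summable.of_nonneg_of_le (fun e => by positivity) (fun e => ?_) (hf.add hg)
  rw [map_add, ← add_mul]
  push_cast
  exact mul_le_mul_of_nonneg_right (abs_add_le _ _) (pow_nonneg hy e)

lemma ev_add {y : ℝ} (hy : 0 ≤ y) {f g : PowerSeries ℤ} (hf : Sm y f) (hg : Sm y g) :
    ev y (f + g) = ev y f + ev y g := by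
  unfold ev
  rw [← (hf.summable hy).tsum_add (hg.summable hy)]
  apply tsum_congr
  intro e
  rw [map_add]
  push_cast
  ring

lemma Sm_zero (y : ℝ) : Sm y 0 := by
  unfold Sm
  simp only [map_zero, Int.cast_zero, abs_zero, zero_mul]
  exact summable_zero

lemma ev_zero (y : ℝ) : ev y 0 = 0 := by
  unfold ev
  simp

lemma Sm_sum {y : ℝ} (hy : 0 ≤ y) {ι : Type*} (s : Finset ι) (f : ι → PowerSeries ℤ)
    (hf : ∀ i ∈ s, Sm y (f i)) : Sm y (∑ i ∈ s, f i) ∧
      ev y (∑ i ∈ s, f i) = ∑ i ∈ s, ev y (f i) := by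
  classical
  induction s using Finset.induction_on with
  | empty => simp [Sm_zero, ev_zero]
  | insert a s ha ih =>
    have h1 := ih (fun i hi => hf i (Finset.mem_insert_of_mem hi))
    have h2 := hf a (Finset.mem_insert_self a s)
    rw [Finset.sum_insert ha, Finset.sum_insert ha, ← h1.2]
    exact ⟨h2.add hy h1.1, ev_add hy h2 h1.1⟩

lemma Sm_poly (y : ℝ) (p : Polynomial ℤ) : Sm y (p : PowerSeries ℤ) := by
  unfold Sm
  apply summable_of_ne_finset_zero (s := range (p.natDegree + 1))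
  intro e he
  rw [Polynomial.coeff_coe, Polynomial.coeff_eq_zero_of_natDegree_lt]
  · simp
  · rw [mem_range] at he; omega

lemma ev_poly (y : ℝ) (p : Polynomial ℤ) : ev y (p : PowerSeries ℤ) = Polynomial.aeval y p := by
  unfold ev
  rw [Polynomial.aeval_eq_sum_range, tsum_eq_sum (s := range (p.natDegree + 1))]
  · apply Finset.sum_congr rfl
    intro e _
    rw [Polynomial.coeff_coe, zsmul_eq_mul]
  · intro e he
    rw [Polynomial.coeff_coe, Polynomial.coeff_eq_zero_of_natDegree_lt]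
    · simp
    · rw [mem_range] at he; omega

lemma Sm_of_bound {y T A : ℝ} (hy : 0 ≤ y) (hT : 0 ≤ T) (hTy : T * y ≤ 1 / 2)
    {f : PowerSeries ℤ} (hf : ∀ e, |((coeff e f : ℤ) : ℝ)| ≤ A * T ^ e) : Sm y f := by
  unfold Sm
  refine Summable.of_nonneg_of_le (fun e => by positivity) (fun e => ?_)
    ((summable_geometric_of_lt_one (mul_nonneg hT hy) (by linarith)).mul_left A)
  calc |((coeff e f : ℤ) : ℝ)| * y ^ e ≤ (A * T ^ e) * y ^ e :=
        mul_le_mul_of_nonneg_right (hf e) (pow_nonneg hy e)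
    _ = A * (T * y) ^ e := by rw [mul_pow]; ring

/-- tail bound -/
lemma ev_tail {y T A : ℝ} (hy : 0 ≤ y) (hT : 0 ≤ T) (hTy : T * y ≤ 1 / 2)
    {f : PowerSeries ℤ} (N : ℕ) (h0 : ∀ e < N, coeff e f = 0)
    (hf : ∀ e, |((coeff e f : ℤ) : ℝ)| ≤ A * T ^ e) : |ev y f| ≤ 2 * A * (T * y) ^ N := by
  have hsm := Sm_of_bound hy hT hTy hf
  have hA : 0 ≤ A := by
    have := (abs_nonneg _).trans (hf 0)
    simpa using this
  have hTy0 : 0 ≤ T * y := mul_nonneg hT hy
  unfold ev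
  rw [← (hsm.summable hy).sum_add_tsum_nat_add N]
  rw [Finset.sum_eq_zero (fun e he => by rw [h0 e (mem_range.1 he)]; simp), zero_add]
  have hg : HasSum (fun e : ℕ => A * (T * y) ^ N * (1 / 2 : ℝ) ^ e) (A * (T * y) ^ N * 2) := by
    have := (hasSum_geometric_of_lt_one (r := (1 / 2 : ℝ)) (by norm_num) (by norm_num)).mul_left
      (A * (T * y) ^ N)
    norm_num at this
    norm_num
    exact this
  have := tsum_of_norm_bounded hg (fun e => by
    show ‖((coeff (e + N) f : ℤ) : ℝ) * y ^ (e + N)‖ ≤ A * (T * y) ^ N * (1 / 2 : ℝ) ^ e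
    rw [norm_mul, Real.norm_eq_abs, Real.norm_eq_abs, abs_of_nonneg (pow_nonneg hy _)]
    calc |((coeff (e + N) f : ℤ) : ℝ)| * y ^ (e + N) ≤ (A * T ^ (e + N)) * y ^ (e + N) :=
          mul_le_mul_of_nonneg_right (hf _) (pow_nonneg hy _)
      _ = A * (T * y) ^ N * (T * y) ^ e := by rw [mul_pow, mul_pow, pow_add, pow_add]; ring
      _ ≤ A * (T * y) ^ N * (1 / 2 : ℝ) ^ e :=
          mul_le_mul_of_nonneg_left (pow_le_pow_left₀ hTy0 hTy e) (by positivity))
  rw [Real.norm_eq_abs] at this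
  linarith

lemma Sj_ev {r : ℕ} (hr : 2 ≤ r) (j : ℕ) {y : ℝ} (hy : 0 ≤ y)
    (hy4 : (r : ℝ) ^ 2 * ((j : ℝ) + 1) * y ≤ 1 / 4) :
    Sm y (Sj r j) ∧ 0 < ev y (Sj r j) ∧
      (ev y (Sj r j)) ^ r = 1 + (r : ℝ) ^ 2 * ((j : ℝ) + 1) * y := by
  set T : ℝ := (r : ℝ) ^ 2 * ((j : ℝ) + 1) with hT
  have hT0 : 0 ≤ T := by positivity
  have hb : ∀ e, |((coeff e (Sj r j) : ℤ) : ℝ)| ≤ 1 * T ^ e := by
    intro e
    have := Sj_bound hr j e
    rw [one_mul, hT]
    exact_mod_cast this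
  have hsm : Sm y (Sj r j) := Sm_of_bound hy hT0 (by linarith) hb
  refine ⟨hsm, ?_, ?_⟩
  · -- positivity
    have h1 : Sj r j = 1 + (Sj r j - 1) := by ring
    have hc0 : coeff 0 (Sj r j) = 1 := by
      rw [Sj, coeff_rescale, pow_zero, one_mul, coeff_zero_eq_constantCoeff_apply]
      exact (SS_spec hr).1
    have hb2 : ∀ e, |((coeff e (Sj r j - 1) : ℤ) : ℝ)| ≤ 1 * T ^ e := by
      intro e
      rw [map_sub, coeff_one]
      rcases Nat.eq_zero_or_pos e with he | he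
      · subst he
        rw [hc0]; simp
      · rw [if_neg (by omega), sub_zero]
        exact hb e
    have h2 := ev_tail hy hT0 (by linarith) 1 (f := Sj r j - 1) (by
      intro e he
      have : e = 0 := by omega
      subst this
      rw [map_sub, hc0]; simp) hb2
    have hsm2 : Sm y (Sj r j - 1) := Sm_of_bound hy hT0 (by linarith) hb2
    have hone : (1 : PowerSeries ℤ) = ((1 : Polynomial ℤ) : PowerSeries ℤ) := by simp
    have h3 : ev y (Sj r j) = 1 + ev y (Sj r j - 1) := by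
      conv_lhs => rw [h1]
      rw [ev_add hy (by rw [hone]; exact Sm_poly _ _) hsm2]
      congr 1
      rw [hone, ev_poly]; simp
    rw [h3]
    rw [abs_le] at h2
    have := h2.1
    rw [pow_one] at this
    nlinarith
  · -- power
    have h1 : ∀ k : ℕ, Sm y ((Sj r j) ^ k) ∧ ev y ((Sj r j) ^ k) = (ev y (Sj r j)) ^ k := by
      intro k
      induction k with
      | zero =>
        have hone : (1 : PowerSeries ℤ) = ((1 : Polynomial ℤ) : PowerSeries ℤ) := by simp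
        rw [pow_zero, pow_zero, hone, ev_poly]
        exact ⟨Sm_poly _ _, by simp⟩
      | succ k ih =>
        rw [pow_succ, pow_succ, ← ih.2]
        exact ⟨ih.1.mul hy hsm, ev_mul hy ih.1 hsm⟩
    rw [← (h1 r).2, Sj_pow hr]
    have h2 : (1 + C ((r : ℤ) * (r * ((j : ℤ) + 1))) * X : PowerSeries ℤ)
        = ((1 + Polynomial.C ((r : ℤ) * (r * ((j : ℤ) + 1))) * Polynomial.X : Polynomial ℤ)
            : PowerSeries ℤ) := by
      rw [Polynomial.coe_add, Polynomial.coe_mul, Polynomial.coe_C, Polynomial.coe_X,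
        Polynomial.coe_one]
    rw [h2, ev_poly]
    rw [map_add, map_one, map_mul, Polynomial.aeval_C, Polynomial.aeval_X, eq_intCast, hT]
    push_cast
    ring

lemma PP_ev {r h m : ℕ} (hr : 2 ≤ r) (hm : m ≤ h) {y : ℝ} (hy : 0 ≤ y)
    (hy4 : (r : ℝ) ^ 2 * (h : ℝ) * y ≤ 1 / 4) :
    Sm y (PP r m) ∧ 0 < ev y (PP r m) ∧
      (ev y (PP r m)) ^ r = ∏ j ∈ range m, (1 + (r : ℝ) ^ 2 * ((j : ℝ) + 1) * y) := by
  induction m with
  | zero =>
    have hone : (1 : PowerSeries ℤ) = ((1 : Polynomial ℤ) : PowerSeries ℤ) := by simp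
    rw [PP, Finset.prod_range_zero, Finset.prod_range_zero, hone, ev_poly]
    exact ⟨Sm_poly _ _, by simp, by simp⟩
  | succ m ih =>
    obtain ⟨h1, h2, h3⟩ := ih (by omega)
    have hj : (r : ℝ) ^ 2 * ((m : ℝ) + 1) * y ≤ 1 / 4 := by
      refine le_trans ?_ hy4
      apply mul_le_mul_of_nonneg_right _ hy
      apply mul_le_mul_of_nonneg_left _ (by positivity)
      exact_mod_cast hm
    obtain ⟨g1, g2, g3⟩ := Sj_ev hr m hy hj
    rw [PP, Finset.prod_range_succ, ← PP, Finset.prod_range_succ, ev_mul hy h1 g1]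
    refine ⟨h1.mul hy g1, mul_pos h2 g2, ?_⟩
    rw [mul_pow, h3, g3]

/-- the value of `(K (n+m)!)^{1/r}` -/
lemma w_shift {r h n g : ℕ} (hr : 2 ≤ r) (hm : r * g ≤ h) (hn : 4 * h ≤ n) (hn0 : 1 ≤ n)
    {K : ℝ} (hK : 0 < K) :
    (K * ((n + r * g).factorial : ℝ)) ^ (1 / (r : ℝ))
      = (K * (n.factorial : ℝ)) ^ (1 / (r : ℝ)) * (n : ℝ) ^ g
        * ev (1 / ((r : ℝ) ^ 2 * n)) (PP r (r * g)) := by
  have hr0 : (r : ℝ) ≠ 0 := by
    have : r ≠ 0 := by omega
    exact_mod_cast this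
  have hn' : (0 : ℝ) < n := by exact_mod_cast hn0
  have hrp : (0 : ℝ) < r := by
    have : 0 < r := by omega
    exact_mod_cast this
  have hy : (0 : ℝ) ≤ 1 / ((r : ℝ) ^ 2 * n) := by positivity
  have hy4 : (r : ℝ) ^ 2 * (h : ℝ) * (1 / ((r : ℝ) ^ 2 * n)) ≤ 1 / 4 := by
    have : (r : ℝ) ^ 2 * (h : ℝ) * (1 / ((r : ℝ) ^ 2 * n)) = h / n := by field_simp
    rw [this, div_le_div_iff₀ hn' (by norm_num)]
    have : (4 * h : ℝ) ≤ n := by exact_mod_cast hn
    linarith
  obtain ⟨h1, h2, h3⟩ := PP_ev hr hm hy hy4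
  have hKn : (0 : ℝ) < K * (n.factorial : ℝ) := by positivity
  have hpow : ((K * (n.factorial : ℝ)) ^ (1 / (r : ℝ)) * (n : ℝ) ^ g
        * ev (1 / ((r : ℝ) ^ 2 * n)) (PP r (r * g))) ^ r = K * ((n + r * g).factorial : ℝ) := by
    rw [mul_pow, mul_pow, h3, ← Real.rpow_natCast, ← Real.rpow_mul hKn.le, one_div,
      inv_mul_cancel₀ hr0, Real.rpow_one, ← pow_mul, mul_comm g r]
    have h4 : (n : ℝ) ^ (r * g) * ∏ j ∈ range (r * g),
        (1 + (r : ℝ) ^ 2 * ((j : ℝ) + 1) * (1 / ((r : ℝ) ^ 2 * n)))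
        = ∏ j ∈ range (r * g), ((n : ℝ) + j + 1) := by
      rw [← Finset.card_range (r * g), ← Finset.prod_const, Finset.card_range,
        ← Finset.prod_mul_distrib]
      apply Finset.prod_congr rfl
      intro j _
      field_simp
      ring
    have h5 : ∀ k : ℕ, (n.factorial : ℝ) * ∏ j ∈ range k, ((n : ℝ) + j + 1)
        = ((n + k).factorial : ℝ) := by
      intro k
      induction k with
      | zero => simp
      | succ k ih =>
        rw [Finset.prod_range_succ, ← mul_assoc, ih, ← add_assoc, Nat.factorial_succ]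
        push_cast
        ring
    rw [mul_assoc, h4, mul_assoc, h5]
  rw [← hpow, ← Real.rpow_natCast, ← Real.rpow_mul, mul_one_div_cancel hr0, Real.rpow_one]
  positivity

end Pool.H78.Fac
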