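import Pool.Agent.H78.Fac.Ev

/-!
The forms `l_s` are integers of absolute value less than one.
-/

namespace Pool.H78.Fac

open Finset PowerSeries

/-- iterating `D d/dy` on a form -/
lemma iter_form {r h : ℕ} (hr : 2 ≤ r) {ι : Type*} (t : Finset ι) (m : ι → ℕ)
    (hm : ∀ i, m i ≤ h) (a : ι → Polynomial ℤ) (s : ℕ) :
    (fun G : PowerSeries ℤ => (DD ℤ r h : PowerSeries ℤ) * PowerSeries.derivative ℤ G)^[s]
      (∑ i ∈ t, (a i : PowerSeries ℤ) * PP r (m i))
    = ∑ i ∈ t, (((LL ℤ r h (m i))^[s] (a i) : Polynomial ℤ) : PowerSeries ℤ) * PP r (m i) := by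
  induction s with
  | zero => rfl
  | succ s ih =>
    rw [Function.iterate_succ_apply', ih]
    show (DD ℤ r h : PowerSeries ℤ) * PowerSeries.derivative ℤ _ = _
    rw [map_sum, Finset.mul_sum]
    apply Finset.sum_congr rfl
    intro i _
    rw [Function.iterate_succ_apply', Derivation.leibniz]
    simp only [smul_eq_mul]
    rw [LL, Polynomial.coe_add, Polynomial.coe_mul, Polynomial.coe_mul, PowerSeries.derivative_coe]
    have h1 := PP_ode hr (hm i)
    calc _ = (((LL ℤ r h (m i))^[s] (a i) : Polynomial ℤ) : PowerSeries ℤ)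
          * ((DD ℤ r h : PowerSeries ℤ) * PowerSeries.derivative ℤ (PP r (m i)))
          + (DD ℤ r h : PowerSeries ℤ) * (Polynomial.derivative ((LL ℤ r h (m i))^[s] (a i))
            : Polynomial ℤ) * PP r (m i) := by ring
      _ = _ := by rw [h1]; ring

lemma int_eval (p : Polynomial ℤ) (N : ℕ) (hN : 1 ≤ N) (D : ℕ) (hD : p.natDegree ≤ D) :
    ∃ k : ℤ, (N : ℚ) ^ D * (p.map (Int.castRingHom ℚ)).eval (1 / (N : ℚ)) = k := by
  have hN' : (N : ℚ) ≠ 0 := by
    have : N ≠ 0 := by omega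
    exact_mod_cast this
  refine ⟨∑ e ∈ range (D + 1), p.coeff e * (N : ℤ) ^ (D - e), ?_⟩
  rw [Polynomial.eval_map, Polynomial.eval₂_eq_sum_range' _ (Nat.lt_succ_of_le hD), Finset.mul_sum]
  push_cast
  apply Finset.sum_congr rfl
  intro e he
  rw [mem_range] at he
  have : (N : ℚ) ^ D = (N : ℚ) ^ (D - e) * (N : ℚ) ^ e := by
    rw [← pow_add, Nat.sub_add_cancel (by omega)]
  rw [this, one_div, inv_pow]
  simp only [eq_intCast]
  field_simp

lemma aeval_cast (p : Polynomial ℤ) (q : ℚ) :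
    (((p.map (Int.castRingHom ℚ)).eval q : ℚ) : ℝ) = Polynomial.aeval (q : ℝ) p := by
  rw [Polynomial.eval_map, Polynomial.eval₂_eq_sum_range, Polynomial.aeval_eq_sum_range]
  push_cast
  apply Finset.sum_congr rfl
  intro e _
  rw [zsmul_eq_mul]
  simp

/-- coefficient bound of a product of a polynomial of bounded weighted norm -/
lemma coeff_prod_bound {r h m X : ℕ} (hr : 2 ≤ r) (hh : 1 ≤ h) (hm : m ≤ h) (p : Polynomial ℤ)
    (hd : p.natDegree ≤ X) {N : ℝ}
    (hN : ∑ e ∈ range (X + 1), |((p.coeff e : ℤ) : ℝ)| / (4 * (r : ℝ) ^ 2 * h) ^ e ≤ N) (e : ℕ) :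
    |((coeff e ((p : PowerSeries ℤ) * PP r m) : ℤ) : ℝ)| ≤ 2 ^ h * N * (4 * (r : ℝ) ^ 2 * h) ^ e := by
  set T : ℝ := 4 * (r : ℝ) ^ 2 * h with hT
  have hr0 : (0 : ℝ) < r := by
    have : 0 < r := by omega
    exact_mod_cast this
  have hh0 : (0 : ℝ) < h := by exact_mod_cast hh
  have hT0 : 0 < T := by positivity
  rw [coeff_mul]
  push_cast
  have h1 : ∀ k, |((coeff k (PP r m) : ℤ) : ℝ)| ≤ 2 ^ h * T ^ k := by
    intro k
    have := PP_bound hr hm k
    have h2 : |((coeff k (PP r m) : ℤ) : ℝ)| ≤ 2 ^ m * (2 * (r : ℝ) ^ 2 * h) ^ k := by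
      exact_mod_cast this
    refine h2.trans ?_
    apply mul_le_mul
    · exact pow_le_pow_right₀ (by norm_num) hm
    · apply pow_le_pow_left₀ (by positivity)
      rw [hT]
      nlinarith [mul_pos (pow_pos hr0 2) hh0]
    · positivity
    · positivity
  calc |∑ q ∈ antidiagonal e, ((p.coeff q.1 : ℤ) : ℝ) * ((coeff q.2 (PP r m) : ℤ) : ℝ)|
      ≤ ∑ q ∈ antidiagonal e, |((p.coeff q.1 : ℤ) : ℝ) * ((coeff q.2 (PP r m) : ℤ) : ℝ)| :=
        Finset.abs_sum_le_sum_abs _ _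
    _ ≤ ∑ q ∈ antidiagonal e, 2 ^ h * T ^ e * (|((p.coeff q.1 : ℤ) : ℝ)| / T ^ q.1) := by
        apply Finset.sum_le_sum
        intro q hq
        rw [HasAntidiagonal.mem_antidiagonal] at hq
        rw [abs_mul]
        have h3 : T ^ e = T ^ q.1 * T ^ q.2 := by rw [← pow_add, hq]
        rw [h3]
        have h4 : 2 ^ h * (T ^ q.1 * T ^ q.2) * (|((p.coeff q.1 : ℤ) : ℝ)| / T ^ q.1)
            = |((p.coeff q.1 : ℤ) : ℝ)| * (2 ^ h * T ^ q.2) := by
          field_simp
        rw [h4]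
        exact mul_le_mul_of_nonneg_left (h1 _) (abs_nonneg _)
    _ = 2 ^ h * T ^ e * ∑ k ∈ range (e + 1), |((p.coeff k : ℤ) : ℝ)| / T ^ k := by
        rw [← Finset.mul_sum, Finset.Nat.sum_antidiagonal_eq_sum_range_succ_mk]
    _ ≤ 2 ^ h * T ^ e * N := by
        apply mul_le_mul_of_nonneg_left _ (by positivity)
        refine le_trans ?_ hN
        have h5 : ∑ k ∈ range (e + 1), |((p.coeff k : ℤ) : ℝ)| / T ^ k
            ≤ ∑ k ∈ range (e + 1) ∪ range (X + 1), |((p.coeff k : ℤ) : ℝ)| / T ^ k :=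
          Finset.sum_le_sum_of_subset_of_nonneg Finset.subset_union_left
            (fun _ _ _ => by positivity)
        refine h5.trans (le_of_eq ?_)
        symm
        apply Finset.sum_subset Finset.subset_union_right
        intro k _ hk
        rw [mem_range, not_lt] at hk
        rw [Polynomial.coeff_eq_zero_of_natDegree_lt (by omega)]
        simp
    _ = _ := by ring

/-- value bound for a polynomial of bounded weighted norm -/
lemma aeval_bound {T y : ℝ} {X : ℕ} (hT : 0 < T) (hy : 0 ≤ y) (hTy : T * y ≤ 1)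
    (p : Polynomial ℤ) (hd : p.natDegree ≤ X) {N : ℝ}
    (hN : ∑ e ∈ range (X + 1), |((p.coeff e : ℤ) : ℝ)| / T ^ e ≤ N) :
    |Polynomial.aeval y p| ≤ N := by
  rw [Polynomial.aeval_eq_sum_range' (Nat.lt_succ_of_le hd)]
  refine le_trans ?_ hN
  refine (Finset.abs_sum_le_sum_abs _ _).trans ?_
  apply Finset.sum_le_sum
  intro e _
  rw [zsmul_eq_mul, abs_mul, abs_of_nonneg (pow_nonneg hy e), div_eq_mul_inv]
  apply mul_le_mul_of_nonneg_left _ (abs_nonneg _)
  rw [← one_div, le_div_iff₀ (pow_pos hT e), ← mul_pow, mul_comm y T]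
  exact pow_le_one₀ (mul_nonneg hT.le hy) hTy

/-- splitting a power series at `L` -/
lemma ev_split {y T A V A' : ℝ} (hy : 0 ≤ y) (hT : 0 ≤ T) (hTy : T * y ≤ 1 / 2)
    (hV : 0 ≤ V) (hVy : V * y ≤ 1 / 2) (hA' : 0 ≤ A') {f : PowerSeries ℤ} (L : ℕ)
    (hf : ∀ e, |((coeff e f : ℤ) : ℝ)| ≤ A * T ^ e)
    (hf' : ∀ e < L, |((coeff e f : ℤ) : ℝ)| ≤ A' * V ^ e) :
    |ev y f| ≤ 2 * A' + 2 * A * (T * y) ^ L := by
  have hA : 0 ≤ A := by
    have := (abs_nonneg _).trans (hf 0)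
    simpa using this
  set lo : PowerSeries ℤ := PowerSeries.mk (fun e => if e < L then coeff e f else 0) with hlo
  set hi : PowerSeries ℤ := PowerSeries.mk (fun e => if e < L then 0 else coeff e f) with hhi
  have hsum : f = lo + hi := by
    ext e
    rw [map_add, hlo, hhi, coeff_mk, coeff_mk]
    split_ifs <;> simp
  have b1 : ∀ e, |((coeff e lo : ℤ) : ℝ)| ≤ A' * V ^ e := by
    intro e
    rw [hlo, coeff_mk]
    split_ifs with h
    · exact hf' e h
    · simp only [Int.cast_zero, abs_zero]; positivity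
  have b2 : ∀ e, |((coeff e hi : ℤ) : ℝ)| ≤ A * T ^ e := by
    intro e
    rw [hhi, coeff_mk]
    split_ifs with h
    · simp only [Int.cast_zero, abs_zero]; positivity
    · exact hf e
  have t1 := ev_tail hy hV hVy (f := lo) 0 (fun e he => absurd he (Nat.not_lt_zero e)) b1
  have t2 := ev_tail hy hT hTy (f := hi) L (fun e he => by rw [hhi, coeff_mk, if_pos he]) b2
  have s1 : Sm y lo := Sm_of_bound hy hV hVy b1
  have s2 : Sm y hi := Sm_of_bound hy hT hTy b2
  rw [hsum, ev_add hy s1 s2]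
  rw [pow_zero, mul_one] at t1
  exact (abs_add_le _ _).trans (add_le_add t1 t2)

end Pool.H78.Fac
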