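import Pool.Agent.H78.Fac.Zero
import Pool.Agent.H61.Fac.Siegel4
import Pool.Agent.H61.Fac.Zero
import Pool.Agent.H43.Fac.Count
import Pool.Agent.H44.Fac.PolyReduce
import Pool.Agent.H37.Fac.Numeric4

/-!
The bound for one pattern and the final count.
-/

namespace Pool.H78.Fac

open Finset

/-- `n` such that some integer is very close to `(K n!)^{1/r}` -/
def Sol (r : ℕ) (K C0 : ℝ) : Set ℕ :=
  {n | ∃ z : ℤ, |(z : ℝ) - (K * (n.factorial : ℝ)) ^ (1 / (r : ℝ))|
    ≤ C0 / (K * (n.factorial : ℝ)) ^ (1 / (r : ℝ))}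

lemma arith_end {r h u s₀ X b : ℕ} (hr : 2 ≤ r) (hh : 1 ≤ h) (hu : u = X / (100 * r))
    (hs : s₀ = X / (500 * r * h)) (hX : (4 * r ^ 2 * h) ^ 5 ≤ X)
    (hb : b * (s₀ - 3) ≤ 4 * (80 * u + 4 * h)) : b ≤ 2000 * h := by
  by_contra hcon
  push Not at hcon
  have hbig : 524288 * (r * h) ≤ X := by
    refine le_trans ?_ hX
    have h1 : (4 * r ^ 2 * h) ^ 5 = (1024 * r ^ 9 * h ^ 4) * (r * h) := by ring
    rw [h1]
    apply Nat.mul_le_mul_right
    have h2 : 2 ^ 9 ≤ r ^ 9 := Nat.pow_le_pow_left hr 9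
    have h3 : 1 ≤ h ^ 4 := Nat.one_le_pow _ _ hh
    calc 524288 = 1024 * 2 ^ 9 * 1 := by norm_num
      _ ≤ 1024 * r ^ 9 * h ^ 4 := Nat.mul_le_mul (Nat.mul_le_mul_left _ h2) h3
  have hu1 : 100 * r * u ≤ X := by rw [hu]; exact Nat.mul_div_le _ _
  have hs1 : X < 500 * r * h * (s₀ + 1) := by
    rw [hs]
    exact Nat.lt_mul_div_succ X (by positivity)
  have hs3 : 3 ≤ s₀ := by
    by_contra h4
    push Not at h4
    have : 500 * r * h * (s₀ + 1) ≤ 500 * r * h * 3 := Nat.mul_le_mul_left _ (by omega)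
    nlinarith
  obtain ⟨t, rfl⟩ : ∃ t, s₀ = t + 3 := ⟨s₀ - 3, by omega⟩
  rw [Nat.add_sub_cancel] at hb
  have h5 : (2000 * h) * t ≤ 4 * (80 * u + 4 * h) :=
    (Nat.mul_le_mul_right t hcon.le).trans hb
  have h6 : r * ((2000 * h) * t) ≤ r * (4 * (80 * u + 4 * h)) := Nat.mul_le_mul_left r h5
  have h7 : 4 * X < 4 * (500 * r * h * (t + 3 + 1)) := by omega
  nlinarith

theorem pattern_bound (r : ℕ) (hr : 2 ≤ r) (K C0 : ℝ) (hK : 1 ≤ K) (hC0 : 0 < C0) :
    ∃ X0 : ℕ, ∀ X h : ℕ, X0 ≤ X → 1 ≤ h → (4 * r ^ 2 * h) ^ 5 ≤ X → X < (4 * r ^ 2 * (h + 1)) ^ 5 →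
      ∀ m : Fin 4 → ℕ, Function.Injective m → (∀ i, m i ≤ h) → (∀ i, r ∣ m i) →
      ∀ B : Finset ℕ, (∀ n ∈ B, 499 * X ≤ 500 * n ∧ n ≤ X ∧ ∀ i, n + m i ∈ Sol r K C0) →
        B.card ≤ 2000 * h := by
  obtain ⟨X0, hX0⟩ := numeric4 r hr K C0 hK hC0
  obtain ⟨n1, hn1⟩ := exists_nat_gt ((Real.sqrt C0) ^ r)
  refine ⟨max X0 (2 * n1), ?_⟩
  intro X h hX hh hXl hXu m hminj hmh hrm B hB
  have hX1 : X0 ≤ X := (le_max_left _ _).trans hX
  have hX2 : 2 * n1 ≤ X := (le_max_right _ _).trans hX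
  have hK0 : (0 : ℝ) < K := by linarith
  have hr0 : (0 : ℝ) < r := by
    have : 0 < r := by omega
    exact_mod_cast this
  choose g hg using hrm
  set u := X / (100 * r) with hu
  set s₀ := X / (500 * r * h) with hs₀
  -- sizes
  have hbig : 524288 * (r * h) ≤ X := by
    refine le_trans ?_ hXl
    have h1 : (4 * r ^ 2 * h) ^ 5 = (1024 * r ^ 9 * h ^ 4) * (r * h) := by ring
    rw [h1]
    apply Nat.mul_le_mul_right
    have h2 : 2 ^ 9 ≤ r ^ 9 := Nat.pow_le_pow_left hr 9
    have h3 : 1 ≤ h ^ 4 := Nat.one_le_pow _ _ hh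
    calc 524288 = 1024 * 2 ^ 9 * 1 := by norm_num
      _ ≤ 1024 * r ^ 9 * h ^ 4 := Nat.mul_le_mul (Nat.mul_le_mul_left _ h2) h3
  have hrh : r ≤ r * h := Nat.le_mul_of_pos_right r hh
  have hhr : h ≤ r * h := Nat.le_mul_of_pos_left h (by omega)
  have hu1 : 1 ≤ u := by
    rw [hu]
    exact (Nat.one_le_div_iff (by positivity)).2 (by omega)
  have hu2 : 100 * r * u ≤ X := by rw [hu]; exact Nat.mul_div_le _ _
  have hu3 : 200 * u ≤ X := by
    refine le_trans ?_ hu2
    apply Nat.mul_le_mul_right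
    omega
  -- Siegel
  have hΦ : ∀ (i : Fin 4) (e : ℕ), |PowerSeries.coeff e (PP r (m i))|
      ≤ (((2 ^ h : ℕ)) : ℤ) * (((2 * r ^ 2 * h : ℕ)) : ℤ) ^ e := by
    intro i e
    refine (PP_bound hr (hmh i) e).trans ?_
    push_cast
    apply mul_le_mul_of_nonneg_right _ (by positivity)
    exact pow_le_pow_right₀ (by norm_num) (hmh i)
  obtain ⟨a, ha0, had, hac, har⟩ := Pool.Agent.H61.Fac.siegel4 u (2 ^ h) (2 * r ^ 2 * h) hu1
    (Nat.one_le_two_pow) (by
      have : 0 < 2 * r ^ 2 * h := by positivity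
      omega) (fun i => PP r (m i)) hΦ
  -- zero estimate
  set Y : Finset ℚ := B.image (fun n : ℕ => 1 / ((r : ℚ) ^ 2 * n)) with hY
  have hpos : ∀ n ∈ B, 1 ≤ n := by
    intro n hn
    have := (hB n hn).1
    omega
  have hrq : (r : ℚ) ≠ 0 := by
    have : r ≠ 0 := by omega
    exact_mod_cast this
  have hcard : Y.card = B.card := by
    apply Finset.card_image_of_injOn
    intro x hx y hy hxy
    have hx0 : (x : ℚ) ≠ 0 := by
      have := hpos x hx
      have : x ≠ 0 := by omega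
      exact_mod_cast this
    have hy0 : (y : ℚ) ≠ 0 := by
      have := hpos y hy
      have : y ≠ 0 := by omega
      exact_mod_cast this
    simp only at hxy
    field_simp at hxy
    exact_mod_cast hxy.symm
  have hze := Pool.Agent.H61.Fac.zero_estimate4 (r := r) (h := h) (d := 80 * u) (s₀ := s₀) hr m
    hminj hmh (fun i => (a i).map (Int.castRingHom ℚ)) (by
      obtain ⟨i, hi⟩ := ha0
      refine ⟨i, ?_⟩
      rwa [Ne, Polynomial.map_eq_zero_iff (RingHom.injective_int _)])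
    (fun i => (Polynomial.natDegree_map_le).trans (had i)) Y (by
      intro y hy
      rw [hY, Finset.mem_image] at hy
      obtain ⟨n, hn, rfl⟩ := hy
      obtain ⟨hn2, hn3, hn4⟩ := hB n hn
      have hn5 := hpos n hn
      refine ⟨by positivity, ?_⟩
      choose z hz using hn4
      have hmi : ∀ i, m i = r * g i := hg
      refine ⟨fun i => (z i : ℚ) / (n : ℚ) ^ (g i), ?_, ?_⟩
      · intro i
        have hn0 : (n : ℚ) ≠ 0 := by
          have : n ≠ 0 := by omega
          exact_mod_cast this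
        apply div_ne_zero _ (pow_ne_zero _ hn0)
        intro h0
        have h0' : z i = 0 := by exact_mod_cast h0
        have h1 := hz i
        rw [h0', Int.cast_zero, zero_sub, abs_neg] at h1
        set wi : ℝ := (K * ((n + m i).factorial : ℝ)) ^ (1 / (r : ℝ)) with hwi
        have hwp : 0 < wi := Real.rpow_pos_of_pos (by positivity) _
        rw [abs_of_pos hwp, le_div_iff₀ hwp] at h1
        have h2 : wi ≤ Real.sqrt C0 := by
          apply Real.le_sqrt_of_sq_le
          rw [pow_two]; exact h1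
        have h3 : wi ^ r = K * ((n + m i).factorial : ℝ) := by
          rw [hwi, ← Real.rpow_natCast, ← Real.rpow_mul (by positivity), one_div,
            inv_mul_cancel₀ hr0.ne', Real.rpow_one]
        have h4 : K * ((n + m i).factorial : ℝ) ≤ (Real.sqrt C0) ^ r := by
          rw [← h3]
          exact pow_le_pow_left₀ hwp.le h2 r
        have h5 : (n : ℝ) ≤ K * ((n + m i).factorial : ℝ) := by
          have e1 : (n : ℝ) ≤ ((n + m i).factorial : ℝ) := by
            exact_mod_cast (Nat.self_le_factorial n).trans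
              (Nat.factorial_le (Nat.le_add_right n (m i)))
          have e2 : ((n + m i).factorial : ℝ) ≤ K * ((n + m i).factorial : ℝ) :=
            le_mul_of_one_le_left (by positivity) hK
          exact e1.trans e2
        have h6 : (n1 : ℝ) ≤ n := by
          have : n1 ≤ n := by omega
          exact_mod_cast this
        linarith
      · intro s hs
        have hsh : s * h ≤ X / 2 := by
          have e1 : s * (500 * r * h) ≤ X :=
            (Nat.mul_le_mul_right _ hs.le).trans (by rw [hs₀]; exact Nat.div_mul_le_self _ _)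
          have e2 : s * h * 2 ≤ s * (500 * r * h) := by
            have : s * (500 * r * h) = s * h * (500 * r) := by ring
            rw [this]
            exact Nat.mul_le_mul_left _ (by omega)
          omega
        have hnum := fun w T Q N => hX0 X h n s u hX1 hh hXl hXu hn2 hn3 hu hs w T Q N
        have := form_zero (r := r) (h := h) (n := n) (s := s) (u := u) (X := X) hr hh
          (by omega) hn3 hXl hn2 (by omega) g
          (fun i => by rw [← hmi i]; exact hmh i) a had (by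
            intro i e
            have h1 := hac i e
            have h2 : |(((a i).coeff e : ℤ) : ℝ)| ≤ (17 * (((2 ^ h : ℕ)) : ℝ)) ^ 4
                * (2 * (((2 * r ^ 2 * h : ℕ)) : ℝ)) ^ (96 * u)
                * (2 * (((2 * r ^ 2 * h : ℕ)) : ℝ)) ^ e := by exact_mod_cast h1
            refine h2.trans (le_of_eq ?_)
            push_cast
            have h3 : 2 * (2 * (r : ℝ) ^ 2 * h) = 4 * (r : ℝ) ^ 2 * h := by ring
            rw [h3])
          (by
            intro e he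
            have h1 := har e he
            have h2 : (2 * (((2 * r ^ 2 * h : ℕ)) : ℤ)) ^ (5 * (e - 181 * u))
                = (((4 * r ^ 2 * h) ^ 5 : ℕ) : ℤ) ^ (e - 181 * u) := by
              rw [pow_mul]
              congr 1
              push_cast
              ring
            rw [← h2]
            simp only [hmi] at h1
            exact h1)
          hK hC0 z (fun i => by rw [← hmi i]; exact hz i) hnum
        simp only [hmi]
        exact this)
  rw [hcard] at hze
  exact arith_end hr hh hu hs₀ hXl hze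

/-- the count of all `n ≤ N` -/
theorem count_sol (r : ℕ) (hr : 2 ≤ r) (K C0 : ℝ) (hK : 1 ≤ K) (hC0 : 0 < C0) :
    ∃ C : ℝ, ∀ N : ℕ, 1 ≤ N → ∀ A : Finset ℕ, (∀ n ∈ A, n ≤ N ∧ n ∈ Sol r K C0) →
      (A.card : ℝ) ≤ C * (N : ℝ) ^ (4 / 5 : ℝ) := by
  obtain ⟨X0, hX0⟩ := pattern_bound r hr K C0 hK hC0
  exact Pool.Agent.H43.Fac.count_of_pattern4 r (4 * r ^ 2) (by omega)
    (Nat.one_le_iff_ne_zero.2 (by positivity)) (Sol r K C0) X0 hX0

/-- main theorem -/
theorem main_count (P : Polynomial ℤ) (hP : 2 ≤ P.natDegree) :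
    ∃ C : ℝ, ∀ N : ℕ, 1 ≤ N →
      (Set.ncard {n : ℕ | n ≤ N ∧ ∃ x : ℤ, P.eval x = (n.factorial : ℤ)} : ℝ)
        ≤ C * (N : ℝ) ^ (4 / 5 : ℝ) := by
  classical
  obtain ⟨K, C0, hK, hC0, n0, hn0⟩ := Pool.H44.Fac.poly_reduce P hP
  obtain ⟨C, hC⟩ := count_sol P.natDegree hP K C0 hK hC0
  refine ⟨C + n0, ?_⟩
  intro N hN
  have hfin : {n : ℕ | n ≤ N ∧ ∃ x : ℤ, P.eval x = (n.factorial : ℤ)}.Finite :=
    (Set.finite_Iic N).subset (fun n hn => hn.1)
  rw [Set.ncard_eq_toFinset_card _ hfin]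
  set A := hfin.toFinset with hA
  have h1 : A ⊆ (A.filter (fun n => n0 ≤ n)) ∪ Finset.range n0 := by
    intro n hn
    rw [Finset.mem_union, Finset.mem_filter, Finset.mem_range]
    by_cases h : n0 ≤ n
    · exact Or.inl ⟨hn, h⟩
    · exact Or.inr (by omega)
  have h2 : A.card ≤ (A.filter (fun n => n0 ≤ n)).card + n0 := by
    refine (Finset.card_le_card h1).trans ((Finset.card_union_le _ _).trans ?_)
    rw [Finset.card_range]
  have h3 := hC N hN (A.filter (fun n => n0 ≤ n)) (by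
    intro n hn
    rw [Finset.mem_filter, hA, Set.Finite.mem_toFinset] at hn
    exact ⟨hn.1.1, hn0 n hn.2 hn.1.2⟩)
  have h4 : (1 : ℝ) ≤ (N : ℝ) ^ (4 / 5 : ℝ) :=
    Real.one_le_rpow (by exact_mod_cast hN) (by norm_num)
  have h5 : (A.card : ℝ) ≤ ((A.filter (fun n => n0 ≤ n)).card : ℝ) + n0 := by exact_mod_cast h2
  have h6 : (n0 : ℝ) ≤ n0 * (N : ℝ) ^ (4 / 5 : ℝ) :=
    le_mul_of_one_le_right (by positivity) h4
  rw [add_mul]
  linarith

end Pool.H78.Fac
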