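import Pool.Agent.H78.Fac.Op

/-!
Growth of small coefficients under `D d/dy`.
-/

namespace Pool.H78.Fac

open Finset PowerSeries

lemma fac_mul_bound {r j V L : ℕ} {A : ℝ} (hA : 0 ≤ A) (hj : r ^ 2 * (j + 1) ≤ V) (hV1 : 1 ≤ V)
    (G : PowerSeries ℤ) (hG : ∀ e < L, |((coeff e G : ℤ) : ℝ)| ≤ A * (V : ℝ) ^ e) :
    ∀ e < L, |((coeff e (((fac ℤ r j : Polynomial ℤ) : PowerSeries ℤ) * G) : ℤ) : ℝ)|
      ≤ 2 * A * (V : ℝ) ^ e := by
  intro e he
  have hV0 : (0 : ℝ) ≤ V := by positivity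
  have h1 : (((fac ℤ r j : Polynomial ℤ) : PowerSeries ℤ) * G)
      = G + C ((r ^ 2 * (j + 1) : ℕ) : ℤ) * (X * G) := by
    rw [fac, Polynomial.coe_add, Polynomial.coe_mul, Polynomial.coe_C, Polynomial.coe_X,
      Polynomial.coe_one]
    ring
  rw [h1, map_add, coeff_C_mul]
  rcases e with _ | e
  · rw [coeff_zero_X_mul, mul_zero, add_zero]
    refine (hG 0 he).trans ?_
    simp only [pow_zero, mul_one]
    linarith
  · rw [coeff_succ_X_mul]
    push_cast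
    have h2 := hG (e + 1) he
    have h3 := hG e (by omega)
    have h4 : ((r : ℝ) ^ 2 * ((j : ℝ) + 1)) ≤ V := by exact_mod_cast hj
    have h5 : |(r : ℝ) ^ 2 * ((j : ℝ) + 1) * ((coeff e G : ℤ) : ℝ)| ≤ V * (A * (V : ℝ) ^ e) := by
      rw [abs_mul, abs_of_nonneg (by positivity : (0 : ℝ) ≤ (r : ℝ) ^ 2 * ((j : ℝ) + 1))]
      exact mul_le_mul h4 h3 (abs_nonneg _) hV0
    calc |((coeff (e + 1) G : ℤ) : ℝ) + (r : ℝ) ^ 2 * ((j : ℝ) + 1) * ((coeff e G : ℤ) : ℝ)|
        ≤ |((coeff (e + 1) G : ℤ) : ℝ)| + |(r : ℝ) ^ 2 * ((j : ℝ) + 1) * ((coeff e G : ℤ) : ℝ)| :=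
          abs_add_le _ _
      _ ≤ A * (V : ℝ) ^ (e + 1) + V * (A * (V : ℝ) ^ e) := add_le_add h2 h5
      _ = _ := by ring

lemma DD_mul_bound {r h V L : ℕ} {A : ℝ} (hA : 0 ≤ A) (hV : r ^ 2 * h ≤ V) (hV1 : 1 ≤ V)
    (G : PowerSeries ℤ) (hG : ∀ e < L, |((coeff e G : ℤ) : ℝ)| ≤ A * (V : ℝ) ^ e) :
    ∀ e < L, |((coeff e ((DD ℤ r h : PowerSeries ℤ) * G) : ℤ) : ℝ)|
      ≤ 2 ^ h * A * (V : ℝ) ^ e := by
  induction h with
  | zero =>
    intro e he
    rw [DD, Finset.prod_range_zero, Polynomial.coe_one, one_mul, pow_zero, one_mul]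
    exact hG e he
  | succ h ih =>
    have h1 : r ^ 2 * h ≤ V := (Nat.mul_le_mul_left _ (Nat.le_succ h)).trans hV
    have ih' := ih h1
    have h2 := fac_mul_bound (r := r) (j := h) (V := V) (L := L) (A := 2 ^ h * A)
      (by positivity) hV hV1 _ ih'
    intro e he
    have h3 : (DD ℤ r (h + 1) : PowerSeries ℤ) * G
        = ((fac ℤ r h : Polynomial ℤ) : PowerSeries ℤ) * ((DD ℤ r h : PowerSeries ℤ) * G) := by
      rw [DD, Finset.prod_range_succ, ← DD, Polynomial.coe_mul]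
      ring
    rw [h3]
    refine (h2 e he).trans (le_of_eq ?_)
    ring

/-- (H) growth of the small coefficients under `D d/dy` -/
theorem major {r h V M0 M1 : ℕ} (hV : r ^ 2 * h ≤ V) (hV1 : 1 ≤ V) (F : PowerSeries ℤ)
    (hF : ∀ e < M1, |PowerSeries.coeff e F| < (V : ℤ) ^ (e - M0)) (s : ℕ) :
    ∀ e, e + s < M1 →
      |((PowerSeries.coeff e ((fun G : PowerSeries ℤ =>
          (DD ℤ r h : PowerSeries ℤ) * PowerSeries.derivative ℤ G)^[s] F) : ℤ) : ℝ)|
        ≤ ((V : ℝ) * M1 * 2 ^ h) ^ s / (V : ℝ) ^ M0 * (V : ℝ) ^ e := by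
  have hV0 : (0 : ℝ) < V := by exact_mod_cast hV1
  induction s with
  | zero =>
    intro e he
    rw [Function.iterate_zero, id_eq, pow_zero]
    have h1 := hF e (by omega)
    rcases le_or_gt M0 e with h | h
    · have h2 : |((coeff e F : ℤ) : ℝ)| ≤ (V : ℝ) ^ (e - M0) := by exact_mod_cast h1.le
      refine h2.trans (le_of_eq ?_)
      have h3 : (V : ℝ) ^ e = (V : ℝ) ^ (e - M0) * (V : ℝ) ^ M0 := by
        rw [← pow_add, Nat.sub_add_cancel h]
      rw [h3]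
      field_simp
    · rw [Nat.sub_eq_zero_of_le h.le, pow_zero] at h1
      have h2 : coeff e F = 0 := Int.abs_lt_one_iff.1 h1
      rw [h2, Int.cast_zero, abs_zero]
      positivity
  | succ s ih =>
    intro e he
    rw [Function.iterate_succ_apply']
    set G := (fun G : PowerSeries ℤ =>
      (DD ℤ r h : PowerSeries ℤ) * PowerSeries.derivative ℤ G)^[s] F with hG
    set A : ℝ := ((V : ℝ) * M1 * 2 ^ h) ^ s / (V : ℝ) ^ M0 with hA
    have hA0 : 0 ≤ A := by positivity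
    have h1 : ∀ e < M1 - (s + 1), |((coeff e (PowerSeries.derivative ℤ G) : ℤ) : ℝ)|
        ≤ (M1 * V * A) * (V : ℝ) ^ e := by
      intro e he
      rw [coeff_derivative]
      push_cast
      rw [abs_mul]
      have h2 := ih (e + 1) (by omega)
      have h3 : |(e : ℝ) + 1| ≤ M1 := by
        rw [abs_of_nonneg (by positivity)]
        have : e + 1 ≤ M1 := by omega
        exact_mod_cast this
      calc |((coeff (e + 1) G : ℤ) : ℝ)| * |(e : ℝ) + 1| ≤ (A * (V : ℝ) ^ (e + 1)) * M1 :=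
            mul_le_mul h2 h3 (abs_nonneg _) (by positivity)
        _ = _ := by ring
    have h4 := DD_mul_bound (r := r) (h := h) (V := V) (L := M1 - (s + 1)) (by positivity) hV hV1
      _ h1 e (by omega)
    refine h4.trans (le_of_eq ?_)
    rw [hA]
    ring

end Pool.H78.Fac
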