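import Pool.Agent.H78.Fac.Op

/-!
Integral power series `(1 + r² (j+1) y)^{1/r}`, their products, coefficient bounds and the
differential equation.
-/

namespace Pool.H78.Fac

open Finset PowerSeries

/-- a contraction of power series has a fixed point -/
lemma exists_fix (F : PowerSeries ℤ → PowerSeries ℤ)
    (hF : ∀ (n : ℕ) (T T' : PowerSeries ℤ), (X : PowerSeries ℤ) ^ n ∣ T - T' →
      (X : PowerSeries ℤ) ^ (n + 1) ∣ F T - F T') : ∃ T, F T = T := by
  set t : ℕ → PowerSeries ℤ := fun n => F^[n] 0 with ht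
  have ht1 : ∀ n, t (n + 1) = F (t n) := fun n => by
    simp only [ht, Function.iterate_succ_apply']
  have h1 : ∀ n, (X : PowerSeries ℤ) ^ n ∣ t (n + 1) - t n := by
    intro n
    induction n with
    | zero => simp
    | succ n ih =>
      have := hF n _ _ ih
      rw [← ht1, ← ht1] at this
      exact this
  have h2 : ∀ n k, (X : PowerSeries ℤ) ^ n ∣ t (n + k) - t n := by
    intro n k
    induction k with
    | zero => simp
    | succ k ih =>
      have h3 : (X : PowerSeries ℤ) ^ n ∣ t (n + k + 1) - t (n + k) :=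
        (pow_dvd_pow _ (by omega)).trans (h1 (n + k))
      have : t (n + (k + 1)) - t n = (t (n + k + 1) - t (n + k)) + (t (n + k) - t n) := by
        rw [← add_assoc]; ring
      rw [this]
      exact dvd_add h3 ih
  set T : PowerSeries ℤ := PowerSeries.mk (fun n => coeff n (t (n + 1))) with hT
  have h4 : ∀ n, (X : PowerSeries ℤ) ^ n ∣ T - t n := by
    intro n
    rw [X_pow_dvd_iff]
    intro k hk
    have h5 := h2 (k + 1) (n - (k + 1))
    rw [Nat.add_sub_cancel' (by omega), X_pow_dvd_iff] at h5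
    have h6 := h5 k (by omega)
    rw [map_sub] at h6 ⊢
    rw [hT, coeff_mk]
    linarith
  refine ⟨T, ?_⟩
  have h7 : ∀ n, (X : PowerSeries ℤ) ^ n ∣ F T - T := by
    intro n
    have e1 := (pow_dvd_pow (X : PowerSeries ℤ) (Nat.le_succ n)).trans (hF n _ _ (h4 n))
    have e2 := h1 n
    have e3 := h4 n
    have : F T - T = (F T - F (t n)) + (t (n + 1) - t n) - (T - t n) := by rw [ht1]; ring
    rw [this]
    exact dvd_sub (dvd_add e1 e2) e3
  rw [← sub_eq_zero]
  ext n
  have := X_pow_dvd_iff.1 (h7 (n + 1)) n (by omega)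
  rw [this, map_zero]

/-- `(1 + r² y)^{1/r}` has integral coefficients -/
lemma exists_root (r : ℕ) (hr : 2 ≤ r) : ∃ S : PowerSeries ℤ, constantCoeff S = 1 ∧
    S ^ r = 1 + C ((r : ℤ) ^ 2) * X := by
  obtain ⟨q, rfl⟩ : ∃ q, r = q + 2 := ⟨r - 2, by omega⟩
  set R : ℤ := ((q + 2 : ℕ) : ℤ) with hR
  set G : PowerSeries ℤ → PowerSeries ℤ := fun T =>
    ∑ k ∈ range (q + 1), C (((q + 2).choose (k + 2) : ℤ) * R ^ k) * X ^ k * T ^ (k + 2) with hG
  have hG1 : ∀ T T', T - T' ∣ G T - G T' := by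
    intro T T'
    simp only [hG]
    rw [← Finset.sum_sub_distrib]
    apply Finset.dvd_sum
    intro k _
    rw [← mul_sub]
    exact Dvd.dvd.mul_left (sub_dvd_pow_sub_pow _ _ _) _
  obtain ⟨T, hT⟩ := exists_fix (fun T => 1 - X * G T) (by
    intro n T T' h
    have : (1 - X * G T) - (1 - X * G T') = X * (-(G T - G T')) := by ring
    rw [this, pow_succ']
    exact mul_dvd_mul_left _ ((dvd_neg.2 (h.trans (hG1 T T')))))
  have hT1 : T + X * G T = 1 := by
    have : 1 - X * G T = T := hT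
    linear_combination (-1 : PowerSeries ℤ) * this
  refine ⟨1 + C R * X * T, ?_, ?_⟩
  · simp
  · have e1 : (1 + C R * X * T) ^ (q + 2) = 1 + C R * (C R * X * T)
        + ∑ k ∈ range (q + 1), (C R * X * T) ^ (k + 2) * ((q + 2).choose (k + 2) : PowerSeries ℤ) := by
      rw [add_comm (1 : PowerSeries ℤ), add_pow]
      simp only [one_pow, mul_one]
      rw [Finset.sum_range_succ', Finset.sum_range_succ']
      simp only [zero_add, pow_one, Nat.choose_one_right, pow_zero, Nat.choose_zero_right,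
        Nat.cast_one, mul_one]
      have : (((q + 2 : ℕ)) : PowerSeries ℤ) = C R := by
        rw [hR]; simp
      rw [this]
      ring
    have e2 : ∑ k ∈ range (q + 1), (C R * X * T) ^ (k + 2) * ((q + 2).choose (k + 2) : PowerSeries ℤ)
        = C (R ^ 2) * X * (X * G T) := by
      simp only [hG]
      rw [Finset.mul_sum, Finset.mul_sum]
      apply Finset.sum_congr rfl
      intro k _
      have : (((q + 2).choose (k + 2) : ℕ) : PowerSeries ℤ) = C (((q + 2).choose (k + 2) : ℕ) : ℤ) := by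
        simp
      rw [this, map_mul, map_pow, map_pow]
      ring
    rw [e1, e2]
    have e3 : C R * (C R * X * T) = C (R ^ 2) * X * T := by rw [map_pow]; ring
    rw [e3]
    linear_combination (C (R ^ 2) * X) * hT1

/-- the differential equation for a root -/
lemma root_ode {r : ℕ} (hr : 2 ≤ r) {c : ℤ} {S : PowerSeries ℤ}
    (h : S ^ r = 1 + C ((r : ℤ) * c) * X) :
    (1 + C ((r : ℤ) * c) * X) * derivative ℤ S = C c * S := by
  have h1 := congrArg (derivative ℤ) h
  rw [derivative_pow, map_add, derivative_one, Derivation.leibniz, derivative_X, derivative_C]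
    at h1
  simp only [smul_eq_mul, mul_one, mul_zero, add_zero, zero_add] at h1
  have h2 : (C (r : ℤ)) * (S ^ r * derivative ℤ S) = C (r : ℤ) * (C c * S) := by
    obtain ⟨q, rfl⟩ : ∃ q, r = q + 1 := ⟨r - 1, by omega⟩
    have h3 : (((q + 1 : ℕ)) : PowerSeries ℤ) = C ((q + 1 : ℕ) : ℤ) := by simp
    rw [h3, map_mul] at h1
    simp only [Nat.add_sub_cancel] at h1
    calc C ((q + 1 : ℕ) : ℤ) * (S ^ (q + 1) * derivative ℤ S)
        = S * (C ((q + 1 : ℕ) : ℤ) * S ^ q * derivative ℤ S) := by ring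
      _ = S * (C ((q + 1 : ℕ) : ℤ) * C c) := by rw [h1]
      _ = _ := by ring
  have h4 : (C (r : ℤ) : PowerSeries ℤ) ≠ 0 := by
    intro h0
    have := congrArg (coeff 0) h0
    simp at this
    omega
  have h5 := mul_left_cancel₀ h4 h2
  rw [h] at h5
  exact h5

/-- coefficient bound for a root -/
lemma root_bound {r : ℕ} (hr : 2 ≤ r) {S : PowerSeries ℤ} (h0 : constantCoeff S = 1)
    (h : S ^ r = 1 + C ((r : ℤ) ^ 2) * X) (e : ℕ) : |coeff e S| ≤ ((r : ℤ) ^ 2) ^ e := by
  have hode : (1 + C ((r : ℤ) * r) * X) * derivative ℤ S = C (r : ℤ) * S := by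
    apply root_ode hr
    rw [h, pow_two]
  have hrec : ∀ e : ℕ, ((e : ℤ) + 1) * coeff (e + 1) S = ((r : ℤ) - r * r * e) * coeff e S := by
    intro e
    have := congrArg (coeff e) hode
    rw [add_mul, one_mul, map_add, coeff_C_mul, mul_assoc, coeff_C_mul, coeff_derivative] at this
    rcases e with _ | e
    · simp only [coeff_zero_X_mul] at this
      simp only [Nat.cast_zero, zero_add, mul_zero, sub_zero] at this ⊢
      linarith
    · rw [coeff_succ_X_mul, coeff_derivative] at this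
      push_cast at this ⊢
      linarith
  have hr1 : (2 : ℤ) ≤ r := by exact_mod_cast hr
  induction e with
  | zero => simp [h0]
  | succ e ih =>
    have h1 := hrec e
    have h2 : |(r : ℤ) - r * r * e| ≤ (r : ℤ) ^ 2 * (e + 1) := by
      rw [abs_le]
      have he : (0 : ℤ) ≤ e := by positivity
      constructor <;> nlinarith [mul_nonneg (by positivity : (0 : ℤ) ≤ (r : ℤ) * r) he]
    have h3 : ((e : ℤ) + 1) * |coeff (e + 1) S| ≤ ((e : ℤ) + 1) * ((r : ℤ) ^ 2) ^ (e + 1) := by
      have e1 : ((e : ℤ) + 1) * |coeff (e + 1) S| = |(r : ℤ) - r * r * e| * |coeff e S| := by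
        rw [← abs_mul, ← h1, abs_mul, abs_of_nonneg (by positivity : (0 : ℤ) ≤ (e : ℤ) + 1)]
      rw [e1]
      calc |(r : ℤ) - r * r * e| * |coeff e S| ≤ ((r : ℤ) ^ 2 * (e + 1)) * ((r : ℤ) ^ 2) ^ e :=
            mul_le_mul h2 ih (abs_nonneg _) (by positivity)
        _ = _ := by ring
    exact le_of_mul_le_mul_left h3 (by positivity)

/-- the root series `(1 + r² y)^{1/r}` -/
noncomputable def SS (r : ℕ) : PowerSeries ℤ :=
  if hr : 2 ≤ r then Classical.choose (exists_root r hr) else 1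

lemma SS_spec {r : ℕ} (hr : 2 ≤ r) : constantCoeff (SS r) = 1 ∧
    (SS r) ^ r = 1 + C ((r : ℤ) ^ 2) * X := by
  rw [SS, dif_pos hr]
  exact Classical.choose_spec (exists_root r hr)

/-- `(1 + r² (j+1) y)^{1/r}` -/
noncomputable def Sj (r j : ℕ) : PowerSeries ℤ := rescale ((j : ℤ) + 1) (SS r)

lemma rescale_Cz (a c : ℤ) : rescale a (C c : PowerSeries ℤ) = C c := by
  ext n
  rw [coeff_rescale, coeff_C]
  split_ifs with h
  · subst h; simp
  · simp

lemma Sj_pow {r : ℕ} (hr : 2 ≤ r) (j : ℕ) :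
    (Sj r j) ^ r = 1 + C ((r : ℤ) * (r * ((j : ℤ) + 1))) * X := by
  rw [Sj, ← map_pow, (SS_spec hr).2, map_add, map_one, map_mul, rescale_X, rescale_Cz]
  rw [← mul_assoc, ← map_mul]
  congr 3
  ring

lemma Sj_bound {r : ℕ} (hr : 2 ≤ r) (j e : ℕ) :
    |coeff e (Sj r j)| ≤ ((r : ℤ) ^ 2 * ((j : ℤ) + 1)) ^ e := by
  rw [Sj, coeff_rescale, abs_mul, abs_of_nonneg (by positivity), mul_pow, mul_comm]
  exact mul_le_mul_of_nonneg_right (root_bound hr (SS_spec hr).1 (SS_spec hr).2 e) (by positivity)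

/-- `prod_{j < m} (1 + r² (j+1) y)^{1/r}` -/
noncomputable def PP (r m : ℕ) : PowerSeries ℤ := ∏ j ∈ range m, Sj r j

lemma PP_bound {r h : ℕ} (hr : 2 ≤ r) {m : ℕ} (hm : m ≤ h) (e : ℕ) :
    |coeff e (PP r m)| ≤ 2 ^ m * (2 * (r : ℤ) ^ 2 * h) ^ e := by
  induction m generalizing e with
  | zero =>
    rw [PP, Finset.prod_range_zero, coeff_one]
    split_ifs with he
    · subst he; simp
    · simp only [abs_zero]; positivity
  | succ m ih =>
    rw [PP, Finset.prod_range_succ, ← PP, coeff_mul]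
    have hW : ∀ k : ℕ, |coeff k (Sj r m)| ≤ ((r : ℤ) ^ 2 * h) ^ k := by
      intro k
      refine (Sj_bound hr m k).trans ?_
      apply pow_le_pow_left₀ (by positivity)
      apply mul_le_mul_of_nonneg_left _ (by positivity)
      exact_mod_cast hm
    calc |∑ p ∈ antidiagonal e, coeff p.1 (PP r m) * coeff p.2 (Sj r m)|
        ≤ ∑ p ∈ antidiagonal e, |coeff p.1 (PP r m) * coeff p.2 (Sj r m)| :=
          Finset.abs_sum_le_sum_abs _ _
      _ ≤ ∑ p ∈ antidiagonal e, (2 ^ m * (2 * (r : ℤ) ^ 2 * h) ^ p.1) * ((r : ℤ) ^ 2 * h) ^ p.2 := by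
          apply Finset.sum_le_sum
          intro p _
          rw [abs_mul]
          exact mul_le_mul (ih (by omega) _) (hW _) (abs_nonneg _) (by positivity)
      _ = 2 ^ m * ((r : ℤ) ^ 2 * h) ^ e * ∑ p ∈ antidiagonal e, 2 ^ p.1 := by
          rw [Finset.mul_sum]
          apply Finset.sum_congr rfl
          intro p hp
          rw [HasAntidiagonal.mem_antidiagonal] at hp
          rw [← hp]
          ring
      _ ≤ 2 ^ m * ((r : ℤ) ^ 2 * h) ^ e * (2 ^ (e + 1)) := by
          apply mul_le_mul_of_nonneg_left _ (by positivity)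
          have e1 : ∑ p ∈ antidiagonal e, (2 : ℤ) ^ p.1 = ∑ k ∈ range (e + 1), (2 : ℤ) ^ k := by
            rw [Finset.Nat.sum_antidiagonal_eq_sum_range_succ_mk]
          rw [e1]
          have e2 : ∀ n : ℕ, ∑ k ∈ range n, (2 : ℤ) ^ k = 2 ^ n - 1 := by
            intro n
            induction n with
            | zero => simp
            | succ n ih => rw [Finset.sum_range_succ, ih]; ring
          rw [e2]
          linarith
      _ = _ := by ring

lemma PP_ode {r h : ℕ} (hr : 2 ≤ r) {m : ℕ} (hm : m ≤ h) :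
    (DD ℤ r h : PowerSeries ℤ) * derivative ℤ (PP r m)
      = (TT ℤ r h m : PowerSeries ℤ) * PP r m := by
  induction m with
  | zero =>
    rw [PP, Finset.prod_range_zero, derivative_one, TT, Finset.range_zero, Finset.sum_empty]
    simp
  | succ m ih =>
    have ih' := ih (by omega)
    rw [PP, Finset.prod_range_succ, ← PP, Derivation.leibniz, TT, Finset.sum_range_succ, ← TT]
    simp only [smul_eq_mul]
    have hmem : m ∈ range h := mem_range.2 hm
    have h1 : (DD ℤ r h : PowerSeries ℤ)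
        = ((fac ℤ r m : Polynomial ℤ) : PowerSeries ℤ)
          * ((∏ l ∈ (range h).erase m, fac ℤ r l : Polynomial ℤ) : PowerSeries ℤ) := by
      rw [← Polynomial.coe_mul, DD, mul_prod_erase _ _ hmem]
    have h2 : ((fac ℤ r m : Polynomial ℤ) : PowerSeries ℤ)
        = 1 + C ((r : ℤ) * (r * ((m : ℤ) + 1))) * X := by
      rw [fac, Polynomial.coe_add, Polynomial.coe_mul, Polynomial.coe_C, Polynomial.coe_X,
        Polynomial.coe_one]
      congr 3
      push_cast
      ring
    have h3 := root_ode hr (Sj_pow hr m)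
    rw [← h2] at h3
    set Q := ((∏ l ∈ (range h).erase m, fac ℤ r l : Polynomial ℤ) : PowerSeries ℤ) with hQ
    have h4 : (DD ℤ r h : PowerSeries ℤ) * derivative ℤ (Sj r m)
        = Q * (C ((r : ℤ) * ((m : ℤ) + 1)) * Sj r m) := by
      rw [h1, ← h3]; ring
    rw [Polynomial.coe_add, Polynomial.coe_mul, Polynomial.coe_C]
    have h5 : (((r * (m + 1) : ℕ)) : ℤ) = (r : ℤ) * ((m : ℤ) + 1) := by push_cast; ring
    rw [h5]
    calc (DD ℤ r h : PowerSeries ℤ) * (PP r m * derivative ℤ (Sj r m)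
          + Sj r m * derivative ℤ (PP r m))
        = PP r m * ((DD ℤ r h : PowerSeries ℤ) * derivative ℤ (Sj r m))
          + Sj r m * ((DD ℤ r h : PowerSeries ℤ) * derivative ℤ (PP r m)) := by ring
      _ = _ := by rw [h4, ih']; ring

end Pool.H78.Fac
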