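import Pool.Agent.H78.Fac.Form
import Pool.Agent.H78.Fac.Major
import Pool.Agent.H43.Fac.Norm

/-!
All forms vanish.
-/

namespace Pool.H78.Fac

open Finset PowerSeries

lemma form_zero {r h n s u X : ℕ} (hr : 2 ≤ r) (hh : 1 ≤ h) (hhn : 4 * h ≤ n) (hnX : n ≤ X)
    (hT5 : (4 * r ^ 2 * h) ^ 5 ≤ X) (hXn : 499 * X ≤ 500 * n)
    (hds : 80 * u + s * h ≤ X)
    (g : Fin 4 → ℕ) (hg : ∀ i, r * g i ≤ h)
    (a : Fin 4 → Polynomial ℤ) (ha : ∀ i, (a i).natDegree ≤ 80 * u)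
    (hB : ∀ i e, |(((a i).coeff e : ℤ) : ℝ)|
      ≤ ((17 * 2 ^ h) ^ 4 * (4 * (r : ℝ) ^ 2 * h) ^ (96 * u)) * (4 * (r : ℝ) ^ 2 * h) ^ e)
    (hrow : ∀ e < 250 * u, |coeff e (∑ i, (a i : PowerSeries ℤ) * PP r (r * g i))|
        < (((4 * r ^ 2 * h) ^ 5 : ℕ) : ℤ) ^ (e - 181 * u))
    {K C0 : ℝ} (hK : 1 ≤ K) (hC0 : 0 < C0) (z : Fin 4 → ℤ)
    (hz : ∀ i, |(z i : ℝ) - (K * ((n + r * g i).factorial : ℝ)) ^ (1 / (r : ℝ))|
      ≤ C0 / (K * ((n + r * g i).factorial : ℝ)) ^ (1 / (r : ℝ)))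
    (hnum : ∀ w T Q N : ℝ, w = (K * (n.factorial : ℝ)) ^ (1 / (r : ℝ)) → T = 4 * (r : ℝ) ^ 2 * h →
      Q = ((r : ℝ) ^ 2 * n) ^ (80 * u + s * h) * (n : ℝ) ^ h →
      N = (2 ^ h * (5 * (r : ℝ) ^ 2 * h * X)) ^ s * ((80 * (u : ℝ) + 1)
        * ((17 * 2 ^ h) ^ 4 * T ^ (96 * u))) →
      Q * (w * (2 * ((T ^ 5 * (250 * u) * 2 ^ h) ^ s / (T ^ 5) ^ (181 * u))
        + 8 * 2 ^ h * N * (4 * h / n) ^ (250 * u - s)) + 4 * C0 / w * N) < 1) :
    ∑ i, ((z i : ℚ) / (n : ℚ) ^ (g i))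
      * ((LL ℚ r h (r * g i))^[s] ((a i).map (Int.castRingHom ℚ))).eval (1 / ((r : ℚ) ^ 2 * n))
      = 0 := by
  have hn1 : 1 ≤ n := by omega
  have hhX : h ≤ X := by omega
  have hr0 : (0 : ℝ) < r := by
    have : 0 < r := by omega
    exact_mod_cast this
  have hr2 : (2 : ℝ) ≤ r := by exact_mod_cast hr
  have hh0 : (0 : ℝ) < h := by exact_mod_cast hh
  have hn0 : (0 : ℝ) < n := by exact_mod_cast hn1
  have hX0 : (0 : ℝ) < X := by
    have : 0 < X := by omega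
    exact_mod_cast this
  have hK0 : (0 : ℝ) < K := by linarith
  set T : ℝ := 4 * (r : ℝ) ^ 2 * h with hT
  set y : ℝ := 1 / ((r : ℝ) ^ 2 * n) with hy
  set w : ℝ := (K * (n.factorial : ℝ)) ^ (1 / (r : ℝ)) with hw
  set Q : ℝ := ((r : ℝ) ^ 2 * n) ^ (80 * u + s * h) * (n : ℝ) ^ h with hQ
  set N : ℝ := (2 ^ h * (5 * (r : ℝ) ^ 2 * h * X)) ^ s * ((80 * (u : ℝ) + 1)
        * ((17 * 2 ^ h) ^ 4 * T ^ (96 * u))) with hN
  have hnum' := hnum w T Q N rfl rfl rfl rfl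
  have hT0 : 0 < T := by positivity
  have hy0 : 0 < y := by positivity
  have hw0 : 0 < w := Real.rpow_pos_of_pos (by positivity) _
  have hN0 : 0 ≤ N := by positivity
  have hQ0 : 0 < Q := by positivity
  have hTy : T * y = 4 * h / n := by
    rw [hT, hy]; field_simp
  have hTy2 : T * y ≤ 1 / 2 ∨ 1 / 2 < T * y := le_or_gt _ _
  -- the polynomials
  set p : Fin 4 → Polynomial ℤ := fun i => (LL ℤ r h (r * g i))^[s] (a i) with hp
  have hpd : ∀ i, (p i).natDegree ≤ 80 * u + s * h ∧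
      ∑ e ∈ range (X + 1), |(((p i).coeff e : ℤ) : ℝ)| / T ^ e ≤ N := by
    intro i
    have := Pool.Agent.H43.Fac.norm_growth hr hh (hg i) hhX hds (a i) (ha i)
      (B := (17 * 2 ^ h) ^ 4 * (4 * (r : ℝ) ^ 2 * h) ^ (96 * u)) (hB i)
    refine ⟨this.1, ?_⟩
    rw [hN]
    have h2 := this.2
    push_cast at h2
    exact h2
  have hpX : ∀ i, (p i).natDegree ≤ X := fun i => (hpd i).1.trans hds
  -- the form
  set F : PowerSeries ℤ := ∑ i, (a i : PowerSeries ℤ) * PP r (r * g i) with hF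
  set Fs : PowerSeries ℤ := ∑ i, (p i : PowerSeries ℤ) * PP r (r * g i) with hFs
  have hFsF : (fun G : PowerSeries ℤ => (DD ℤ r h : PowerSeries ℤ)
      * PowerSeries.derivative ℤ G)^[s] F = Fs := iter_form hr Finset.univ (fun i => r * g i) hg a s
  -- V
  set V : ℕ := (4 * r ^ 2 * h) ^ 5 with hV
  have hVT : (V : ℝ) = T ^ 5 := by rw [hV, hT]; push_cast; ring
  have hV1 : 1 ≤ V := Nat.one_le_pow _ _ (by positivity)
  have hVr : r ^ 2 * h ≤ V := by
    have h1 : 4 * r ^ 2 * h ≤ (4 * r ^ 2 * h) ^ 5 := Nat.le_self_pow (by norm_num) _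
    have h2 : r ^ 2 * h ≤ 4 * r ^ 2 * h := by nlinarith [Nat.zero_le (r ^ 2 * h)]
    exact h2.trans h1
  have hVy : (V : ℝ) * y ≤ 1 / 2 := by
    have h1 : (V : ℝ) ≤ X := by exact_mod_cast hT5
    have h2 : (499 : ℝ) * X ≤ 500 * n := by exact_mod_cast hXn
    have h3 : (V : ℝ) ≤ 2 * n := by linarith
    rw [hy, mul_one_div, div_le_div_iff₀ (by positivity) (by norm_num)]
    have h4 : (4 : ℝ) ≤ (r : ℝ) ^ 2 := by nlinarith
    nlinarith
  have hTyV : T * y ≤ 1 / 2 := by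
    have h1 : T ≤ V := by
      rw [hV, hT]
      have : 4 * r ^ 2 * h ≤ (4 * r ^ 2 * h) ^ 5 := Nat.le_self_pow (by norm_num) _
      exact_mod_cast this
    exact (mul_le_mul_of_nonneg_right h1 hy0.le).trans hVy
  -- coefficient bounds
  have c1 : ∀ e, |((coeff e Fs : ℤ) : ℝ)| ≤ (4 * (2 ^ h * N)) * T ^ e := by
    intro e
    rw [hFs, map_sum]
    push_cast
    refine (Finset.abs_sum_le_sum_abs _ _).trans ?_
    have : ∀ i ∈ (Finset.univ : Finset (Fin 4)),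
        |((coeff e ((p i : PowerSeries ℤ) * PP r (r * g i)) : ℤ) : ℝ)| ≤ 2 ^ h * N * T ^ e :=
      fun i _ => coeff_prod_bound hr hh (hg i) (p i) (hpX i) (hpd i).2 e
    refine (Finset.sum_le_sum this).trans (le_of_eq ?_)
    rw [Finset.sum_const, Finset.card_univ, Fintype.card_fin]
    simp only [nsmul_eq_mul]
    push_cast
    ring
  have c2 : ∀ e < 250 * u - s, |((coeff e Fs : ℤ) : ℝ)|
      ≤ ((V : ℝ) * (250 * u) * 2 ^ h) ^ s / (V : ℝ) ^ (181 * u) * (V : ℝ) ^ e := by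
    intro e he
    have := major hVr hV1 F hrow s e (by omega)
    rw [hFsF] at this
    push_cast at this
    exact this
  have hev := ev_split hy0.le hT0.le hTyV (by positivity) hVy (by positivity) (250 * u - s) c1 c2
  -- evaluate
  have hy4 : (r : ℝ) ^ 2 * (h : ℝ) * y ≤ 1 / 4 := by
    have h1 : (r : ℝ) ^ 2 * (h : ℝ) * y = h / n := by rw [hy]; field_simp
    rw [h1, div_le_div_iff₀ hn0 (by norm_num)]
    have : (4 * h : ℝ) ≤ n := by exact_mod_cast hhn
    linarith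
  have hevFs : ev y Fs = ∑ i, Polynomial.aeval y (p i) * ev y (PP r (r * g i)) := by
    have h1 := Sm_sum hy0.le Finset.univ
      (fun i : Fin 4 => (p i : PowerSeries ℤ) * PP r (r * g i))
      (fun i _ => (Sm_poly y (p i)).mul hy0.le (PP_ev hr (hg i) hy0.le hy4).1)
    rw [hFs, h1.2]
    apply Finset.sum_congr rfl
    intro i _
    rw [ev_mul hy0.le (Sm_poly y (p i)) (PP_ev hr (hg i) hy0.le hy4).1, ev_poly]
  have hshift : ∀ i, (K * ((n + r * g i).factorial : ℝ)) ^ (1 / (r : ℝ))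
      = w * (n : ℝ) ^ (g i) * ev y (PP r (r * g i)) := fun i => w_shift hr (hg i) hhn hn1 hK0
  have hwi : ∀ i, w ≤ (K * ((n + r * g i).factorial : ℝ)) ^ (1 / (r : ℝ)) := by
    intro i
    apply Real.rpow_le_rpow (by positivity) _ (by positivity)
    apply mul_le_mul_of_nonneg_left _ hK0.le
    exact_mod_cast Nat.factorial_le (Nat.le_add_right n (r * g i))
  -- the real form
  set S : ℝ := ∑ i, ((z i : ℝ) / (n : ℝ) ^ (g i)) * Polynomial.aeval y (p i) with hS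
  have hSeq : S = w * ev y Fs
      + ∑ i, ((z i : ℝ) - (K * ((n + r * g i).factorial : ℝ)) ^ (1 / (r : ℝ)))
          / (n : ℝ) ^ (g i) * Polynomial.aeval y (p i) := by
    rw [hS, hevFs, Finset.mul_sum, ← Finset.sum_add_distrib]
    apply Finset.sum_congr rfl
    intro i _
    rw [hshift i]
    have : (n : ℝ) ^ (g i) ≠ 0 := by positivity
    field_simp
    ring
  have hSabs : |S| ≤ w * (2 * (((V : ℝ) * (250 * u) * 2 ^ h) ^ s / (V : ℝ) ^ (181 * u))
      + 2 * (4 * (2 ^ h * N)) * (T * y) ^ (250 * u - s)) + 4 * C0 / w * N := by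
    rw [hSeq]
    refine (abs_add_le _ _).trans (add_le_add ?_ ?_)
    · rw [abs_mul, abs_of_pos hw0]
      exact mul_le_mul_of_nonneg_left hev hw0.le
    · refine (Finset.abs_sum_le_sum_abs _ _).trans ?_
      have : ∀ i ∈ (Finset.univ : Finset (Fin 4)),
          |((z i : ℝ) - (K * ((n + r * g i).factorial : ℝ)) ^ (1 / (r : ℝ)))
            / (n : ℝ) ^ (g i) * Polynomial.aeval y (p i)| ≤ C0 / w * N := by
        intro i _
        rw [abs_mul, abs_div]
        have e1 : |(z i : ℝ) - (K * ((n + r * g i).factorial : ℝ)) ^ (1 / (r : ℝ))| ≤ C0 / w :=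
          (hz i).trans (div_le_div_of_nonneg_left hC0.le hw0 (hwi i))
        have e2 : (1 : ℝ) ≤ |(n : ℝ) ^ (g i)| := by
          rw [abs_of_pos (by positivity)]
          exact one_le_pow₀ (by exact_mod_cast hn1)
        have e3 : |Polynomial.aeval y (p i)| ≤ N :=
          aeval_bound hT0 hy0.le (by linarith) (p i) (hpX i) (hpd i).2
        have e4 : |(z i : ℝ) - (K * ((n + r * g i).factorial : ℝ)) ^ (1 / (r : ℝ))|
            / |(n : ℝ) ^ (g i)| ≤ C0 / w :=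
          (div_le_self (abs_nonneg _) e2).trans e1
        exact mul_le_mul e4 e3 (abs_nonneg _) (by positivity)
      refine (Finset.sum_le_sum this).trans (le_of_eq ?_)
      rw [Finset.sum_const, Finset.card_univ, Fintype.card_fin]
      simp only [nsmul_eq_mul]
      push_cast
      ring
  have hQS : |Q * S| < 1 := by
    rw [abs_mul, abs_of_pos hQ0]
    refine lt_of_le_of_lt (mul_le_mul_of_nonneg_left hSabs hQ0.le) ?_
    rw [hVT, hTy]
    refine lt_of_le_of_lt (le_of_eq ?_) hnum'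
    ring
  -- integrality
  set qs : ℚ := ∑ i, ((z i : ℚ) / (n : ℚ) ^ (g i))
      * ((p i).map (Int.castRingHom ℚ)).eval (1 / ((r : ℚ) ^ 2 * n)) with hqs
  have hqS : (qs : ℝ) = S := by
    rw [hqs, hS]
    push_cast
    apply Finset.sum_congr rfl
    intro i _
    rw [aeval_cast, hy]
    push_cast
    rfl
  have hgi : ∀ i, g i ≤ h := by
    intro i
    have h1 := hg i
    have h2 : g i ≤ r * g i := Nat.le_mul_of_pos_left _ (by omega)
    omega
  have hint : ∃ k : ℤ, ((r : ℚ) ^ 2 * n) ^ (80 * u + s * h) * (n : ℚ) ^ h * qs = k := by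
    have h1 : ∀ i, ∃ k : ℤ, (((r ^ 2 * n : ℕ)) : ℚ) ^ (80 * u + s * h)
        * ((p i).map (Int.castRingHom ℚ)).eval (1 / (((r ^ 2 * n : ℕ)) : ℚ)) = k :=
      fun i => int_eval (p i) (r ^ 2 * n) (Nat.mul_pos (by positivity) hn1) _ (hpd i).1
    choose k hk using h1
    refine ⟨∑ i, z i * (n : ℤ) ^ (h - g i) * k i, ?_⟩
    rw [hqs, Finset.mul_sum]
    push_cast
    apply Finset.sum_congr rfl
    intro i _
    rw [← hk i]
    have h2 : (n : ℚ) ^ h = (n : ℚ) ^ (h - g i) * (n : ℚ) ^ (g i) := by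
      rw [← pow_add, Nat.sub_add_cancel (hgi i)]
    have h3 : (n : ℚ) ≠ 0 := by
      have : n ≠ 0 := by omega
      exact_mod_cast this
    rw [h2]
    push_cast
    field_simp
  obtain ⟨k, hk⟩ := hint
  have hkS : (k : ℝ) = Q * S := by
    have := congrArg (fun t : ℚ => (t : ℝ)) hk
    push_cast at this
    rw [← this, hqS, hQ]
  rw [← hkS] at hQS
  have hk0 : k = 0 := by
    have h1 : |k| < 1 := by exact_mod_cast hQS
    exact Int.abs_lt_one_iff.1 h1
  have hqs0 : qs = 0 := by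
    rw [hk0, Int.cast_zero] at hk
    have h3 : (n : ℚ) ≠ 0 := by
      have : n ≠ 0 := by omega
      exact_mod_cast this
    have h4 : (r : ℚ) ≠ 0 := by
      have : r ≠ 0 := by omega
      exact_mod_cast this
    rcases mul_eq_zero.1 hk with h5 | h5
    · exfalso
      have : ((r : ℚ) ^ 2 * n) ^ (80 * u + s * h) * (n : ℚ) ^ h ≠ 0 := by positivity
      exact this h5
    · exact h5
  rw [← hqs0, hqs]
  apply Finset.sum_congr rfl
  intro i _
  rw [hp]
  simp only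
  rw [map_LLit]

end Pool.H78.Fac
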